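import Pool.Agent.Q205.WV.Stm

/-!
Project WV (helper205, MP_28b024_mp), job CAUI: the average of a Moebius function over the Cauchy law.
-/

set_option autoImplicit false

namespace Pool.Agent.Q182.WV.CAUI

open MeasureTheory Filter Pool.Agent.W792.LL Pool.Agent.W792.WA
open scoped Topology

noncomputable section

theorem norm_lt {γ : ℝ} {x s : ℂ} (hγ : 0 < γ) (hx : x.im < 0) (hs : ‖s‖ < 1) :
    ‖x * (1 - s) - Complex.I * (1 + s) + Complex.I * γ * (1 - s)‖ <
      ‖-(x * (1 - s) - Complex.I * (1 + s)) + Complex.I * γ * (1 - s)‖ := by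
  have hs2 : s.re ^ 2 + s.im ^ 2 < 1 := by
    have h1 : ‖s‖ ^ 2 < 1 := by nlinarith [norm_nonneg s]
    rw [← Complex.normSq_eq_norm_sq, Complex.normSq_apply] at h1
    nlinarith
  have key : Complex.normSq (x * (1 - s) - Complex.I * (1 + s) + Complex.I * γ * (1 - s)) <
      Complex.normSq (-(x * (1 - s) - Complex.I * (1 + s)) + Complex.I * γ * (1 - s)) := by
    rw [Complex.normSq_apply, Complex.normSq_apply]
    simp only [Complex.add_re, Complex.sub_re, Complex.mul_re, Complex.add_im, Complex.sub_im,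
      Complex.mul_im, Complex.neg_re, Complex.neg_im, Complex.one_re, Complex.one_im,
      Complex.I_re, Complex.I_im, Complex.ofReal_re, Complex.ofReal_im]
    have h2 : 0 < -x.im * ((1 - s.re) ^ 2 + s.im ^ 2) + (1 - (s.re ^ 2 + s.im ^ 2)) := by
      have h3 : 0 ≤ -x.im * ((1 - s.re) ^ 2 + s.im ^ 2) := by
        have : 0 ≤ -x.im := by linarith
        positivity
      linarith
    have h4 : 0 < γ * (-x.im * ((1 - s.re) ^ 2 + s.im ^ 2) + (1 - (s.re ^ 2 + s.im ^ 2))) :=
      mul_pos hγ h2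
    nlinarith [h4]
  rw [Complex.normSq_eq_norm_sq, Complex.normSq_eq_norm_sq] at key
  exact lt_of_pow_lt_pow_left₀ 2 (norm_nonneg _) key

theorem den_ne {E F c : ℂ} (h : ‖F‖ < ‖E‖) (hc : ‖c‖ = 1) : E + F * c ≠ 0 := by
  intro h0
  have h1 : E = -(F * c) := eq_neg_of_add_eq_zero_left h0
  have h2 : ‖E‖ = ‖F‖ := by rw [h1, norm_neg, norm_mul, hc, mul_one]
  linarith

theorem norm_den {E F c : ℂ} (hc : ‖c‖ = 1) : ‖E‖ - ‖F‖ ≤ ‖E + F * c‖ := by
  have h1 : ‖E‖ ≤ ‖E + F * c‖ + ‖F * c‖ := by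
    have := norm_sub_le (E + F * c) (F * c)
    rwa [add_sub_cancel_right] at this
  rw [norm_mul, hc, mul_one] at h1
  linarith

theorem integrable_frac (h : S_CAY) {E F : ℂ} (hEF : ‖F‖ < ‖E‖) (n : ℕ) :
    Integrable (fun a => cay a ^ n / (E + F * cay a)) (ProbabilityTheory.cauchyMeasure 0 1) ∧
    ‖∫ a, cay a ^ n / (E + F * cay a) ∂(ProbabilityTheory.cauchyMeasure 0 1)‖ ≤
      1 / (‖E‖ - ‖F‖) := by
  obtain ⟨hc, hcont, -, -⟩ := h
  have hb : ∀ a, ‖cay a ^ n / (E + F * cay a)‖ ≤ 1 / (‖E‖ - ‖F‖) := by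
    intro a
    rw [norm_div, norm_pow, hc, one_pow]
    exact one_div_le_one_div_of_le (by linarith) (norm_den (hc a))
  have hm : Continuous (fun a => cay a ^ n / (E + F * cay a)) :=
    (hcont.pow n).div (continuous_const.add (continuous_const.mul hcont))
      (fun a => den_ne hEF (hc a))
  refine ⟨Integrable.of_bound hm.aestronglyMeasurable _ (Eventually.of_forall hb), ?_⟩
  have := norm_integral_le_of_norm_le_const (μ := ProbabilityTheory.cauchyMeasure 0 1)
    (Eventually.of_forall hb)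
  simpa using this

theorem integral_zero (h : S_CAY) {E F : ℂ} (hEF : ‖F‖ < ‖E‖) :
    ∫ a, cay a / (E + F * cay a) ∂(ProbabilityTheory.cauchyMeasure 0 1) = 0 := by
  have hE : 0 < ‖E‖ := lt_of_le_of_lt (norm_nonneg F) hEF
  have hE0 : E ≠ 0 := norm_pos_iff.1 hE
  set I : ℕ → ℂ := fun n =>
    ∫ a, cay a ^ n / (E + F * cay a) ∂(ProbabilityTheory.cauchyMeasure 0 1) with hI
  have hint := integrable_frac h hEF
  have hrec : ∀ n, 0 < n → E * I n + F * I (n + 1) = 0 := by
    intro n hn
    have h1 : E * I n + F * I (n + 1) =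
        ∫ a, cay a ^ n ∂(ProbabilityTheory.cauchyMeasure 0 1) := by
      simp only [hI]
      rw [← integral_const_mul, ← integral_const_mul, ← integral_add
        ((hint n).1.const_mul E) ((hint (n + 1)).1.const_mul F)]
      refine integral_congr_ae (Eventually.of_forall fun a => ?_)
      have h2 := den_ne hEF (h.1 a)
      show E * (cay a ^ n / (E + F * cay a)) + F * (cay a ^ (n + 1) / (E + F * cay a)) = cay a ^ n
      field_simp
      ring
    rw [h1]
    exact h.2.2.2 n hn
  have hrec' : ∀ n, 0 < n → ‖I n‖ = ‖F‖ / ‖E‖ * ‖I (n + 1)‖ := by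
    intro n hn
    have h1 : I n = -(F / E) * I (n + 1) := by
      have h2 := hrec n hn
      field_simp
      linear_combination h2
    rw [h1, norm_mul, norm_neg, norm_div]
  have hall : ∀ n, ‖I 1‖ = (‖F‖ / ‖E‖) ^ n * ‖I (n + 1)‖ := by
    intro n
    induction n with
    | zero => simp
    | succ n ih =>
      rw [ih, hrec' (n + 1) (Nat.succ_pos n), pow_succ]
      ring
  have hr : ‖F‖ / ‖E‖ < 1 := (div_lt_one hE).2 hEF
  have hr0 : 0 ≤ ‖F‖ / ‖E‖ := div_nonneg (norm_nonneg _) hE.le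
  have hlim : Tendsto (fun n : ℕ => (‖F‖ / ‖E‖) ^ n * (1 / (‖E‖ - ‖F‖))) atTop (𝓝 0) := by
    have := (tendsto_pow_atTop_nhds_zero_of_lt_one hr0 hr).mul_const (1 / (‖E‖ - ‖F‖))
    rwa [zero_mul] at this
  have h0 : ‖I 1‖ ≤ 0 := by
    refine ge_of_tendsto' hlim fun n => ?_
    rw [hall n]
    exact mul_le_mul_of_nonneg_left (hint (n + 1)).2 (pow_nonneg hr0 n)
  have h1 : I 1 = 0 := norm_le_zero_iff.1 h0
  have h2 : I 1 = ∫ a, cay a / (E + F * cay a) ∂(ProbabilityTheory.cauchyMeasure 0 1) := by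
    simp only [hI, pow_one]
  rw [← h2, h1]

theorem pointwise {γ : ℝ} {x s : ℂ} (hx : x.im < 0) {A B E F : ℂ}
    (hA : A = -(x + Complex.I) + Complex.I * γ) (hB : B = (x + Complex.I) + Complex.I * γ)
    (hE : E = -(x * (1 - s) - Complex.I * (1 + s)) + Complex.I * γ * (1 - s))
    (hF : F = x * (1 - s) - Complex.I * (1 + s) + Complex.I * γ * (1 - s))
    (hE0 : E ≠ 0) (a : ℝ) (hd : E + F * cay a ≠ 0) :
    cayx x (γ * a) / (1 - cayx x (γ * a) * s) =
      A / E + (B - A * F / E) * (cay a / (E + F * cay a)) := by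
  have ha : (a : ℂ) - Complex.I ≠ 0 := by
    intro h0
    have := congrArg Complex.im h0
    simp at this
  have hI : (2 * Complex.I : ℂ) ≠ 0 := by simp
  have hw : x + (γ : ℂ) * a - Complex.I ≠ 0 := by
    intro h0
    have := congrArg Complex.im h0
    simp at this
    linarith
  have e1 : (A + B * cay a) * ((a : ℂ) - Complex.I) =
      2 * Complex.I * (x + (γ : ℂ) * a + Complex.I) := by
    unfold cay
    rw [hA, hB]
    field_simp
    ring_nf
    try simp only [Complex.I_sq]
    try ring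
  have e2 : (E + F * cay a) * ((a : ℂ) - Complex.I) =
      2 * Complex.I * ((x + (γ : ℂ) * a) * (1 - s) - Complex.I * (1 + s)) := by
    unfold cay
    rw [hE, hF]
    field_simp
    ring_nf
    try simp only [Complex.I_sq]
    try ring
  have hD : (x + (γ : ℂ) * a) * (1 - s) - Complex.I * (1 + s) ≠ 0 := by
    intro h0
    rw [h0, mul_zero] at e2
    exact (mul_ne_zero hd ha) e2
  have e3 : A / E + (B - A * F / E) * (cay a / (E + F * cay a)) =
      (A + B * cay a) / (E + F * cay a) := by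
    field_simp
    ring
  have e4 : (A + B * cay a) / (E + F * cay a) =
      (x + (γ : ℂ) * a + Complex.I) / ((x + (γ : ℂ) * a) * (1 - s) - Complex.I * (1 + s)) := by
    rw [← mul_div_mul_right _ _ ha, e1, e2, mul_div_mul_left _ _ hI]
  have e5 : cayx x (γ * a) =
      (x + (γ : ℂ) * a + Complex.I) / (x + (γ : ℂ) * a - Complex.I) := by
    unfold cayx
    push_cast
    rfl
  have e6 : 1 - cayx x (γ * a) * s =
      ((x + (γ : ℂ) * a) * (1 - s) - Complex.I * (1 + s)) / (x + (γ : ℂ) * a - Complex.I) := by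
    rw [e5, eq_div_iff hw]
    have : (x + (γ : ℂ) * a + Complex.I) / (x + (γ : ℂ) * a - Complex.I) *
        (x + (γ : ℂ) * a - Complex.I) = x + (γ : ℂ) * a + Complex.I := div_mul_cancel₀ _ hw
    calc (1 - (x + (γ : ℂ) * a + Complex.I) / (x + (γ : ℂ) * a - Complex.I) * s) *
          (x + (γ : ℂ) * a - Complex.I)
        = (x + (γ : ℂ) * a - Complex.I) - ((x + (γ : ℂ) * a + Complex.I) /
            (x + (γ : ℂ) * a - Complex.I) * (x + (γ : ℂ) * a - Complex.I)) * s := by ring
      _ = _ := by rw [this]; ring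
  rw [e3, e4, e6, e5, div_div_div_cancel_right₀ hw]

theorem main : S_CAY → S_CAUI := by
  intro h γ x s hγ hx hs
  set A : ℂ := -(x + Complex.I) + Complex.I * γ with hA
  set B : ℂ := (x + Complex.I) + Complex.I * γ with hB
  set E : ℂ := -(x * (1 - s) - Complex.I * (1 + s)) + Complex.I * γ * (1 - s) with hE
  set F : ℂ := x * (1 - s) - Complex.I * (1 + s) + Complex.I * γ * (1 - s) with hF
  have hEF : ‖F‖ < ‖E‖ := norm_lt hγ hx hs
  have hE0 : E ≠ 0 := norm_pos_iff.1 (lt_of_le_of_lt (norm_nonneg F) hEF)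
  have hint := integrable_frac h hEF 1
  simp only [pow_one] at hint
  have h1 : ∫ a, cayx x (γ * a) / (1 - cayx x (γ * a) * s) ∂(ProbabilityTheory.cauchyMeasure 0 1) =
      ∫ a, (A / E + (B - A * F / E) * (cay a / (E + F * cay a)))
        ∂(ProbabilityTheory.cauchyMeasure 0 1) :=
    integral_congr_ae (Eventually.of_forall fun a =>
      pointwise hx hA hB hE hF hE0 a (den_ne hEF (h.1 a)))
  rw [h1, integral_add (integrable_const _) (hint.1.const_mul _), integral_const_mul,
    integral_zero h hEF, mul_zero, add_zero, integral_const]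
  have hw : x - (γ : ℂ) * Complex.I - Complex.I ≠ 0 := by
    intro h0
    have := congrArg Complex.im h0
    simp at this
    linarith
  have e5 : cayx (x - γ * Complex.I) 0 =
      (x - (γ : ℂ) * Complex.I + Complex.I) / (x - (γ : ℂ) * Complex.I - Complex.I) := by
    unfold cayx
    simp
  have hE' : (x - (γ : ℂ) * Complex.I) * (1 - s) - Complex.I * (1 + s) = -E := by
    rw [hE]; ring
  have hA' : x - (γ : ℂ) * Complex.I + Complex.I = -A := by
    rw [hA]; ring
  have e6 : 1 - cayx (x - γ * Complex.I) 0 * s =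
      -E / (x - (γ : ℂ) * Complex.I - Complex.I) := by
    rw [← hE', e5, eq_div_iff hw]
    have : (x - (γ : ℂ) * Complex.I + Complex.I) / (x - (γ : ℂ) * Complex.I - Complex.I) *
        (x - (γ : ℂ) * Complex.I - Complex.I) = x - (γ : ℂ) * Complex.I + Complex.I :=
      div_mul_cancel₀ _ hw
    calc (1 - (x - (γ : ℂ) * Complex.I + Complex.I) / (x - (γ : ℂ) * Complex.I - Complex.I) * s) *
          (x - (γ : ℂ) * Complex.I - Complex.I)
        = (x - (γ : ℂ) * Complex.I - Complex.I) - ((x - (γ : ℂ) * Complex.I + Complex.I) /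
            (x - (γ : ℂ) * Complex.I - Complex.I) * (x - (γ : ℂ) * Complex.I - Complex.I)) * s := by
          ring
      _ = _ := by rw [this]; ring
  rw [e6, e5, hA', div_div_div_cancel_right₀ hw, neg_div_neg_eq]
  simp

end

end Pool.Agent.Q182.WV.CAUI
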